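import Mathlib
import Pool.Agent.Lib.MP_473540_gt.Club

/-!
Normal linearly Lindelöf spaces which are not Lindelöf, from good scales.
-/

namespace Pool.Agent.Results.MP_473540_gt.GoodScale

open Cardinal Pool.Agent.Lib.MP_473540_gt

/-- Let `(f α)_{α < lam}` be a scale in the product of the regular uncountable cardinals
`κ 0 < κ 1 < ...` which is good: there is a closed unbounded subset `E` of `lam` such that every
point `δ ∈ E` whose cofinality is uncountable and at most the continuum is good, or at least the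
sequence `(f β)_{β < δ}` has an exact upper bound modulo finite almost all of whose values have
uncountable cofinality. Then there is a normal `T₁` space which is linearly Lindelöf (even every
open cover which is a chain with respect to inclusion has a countable subcover, and every subset of
regular uncountable cardinality has a complete accumulation point) and not Lindelöf. -/
theorem result (κ : ℕ → Cardinal.{0}) (lam : Cardinal.{0}) (f : Ordinal.{0} → ℕ → Ordinal.{0})
    (hf : Scale κ lam f) (E : Set Ordinal.{0})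
    (hE : ∀ α < lam.ord, ∃ β ∈ E, α < β ∧ β < lam.ord)
    (hE' : ∀ δ < lam.ord, δ ≠ 0 → (∀ α < δ, ∃ β ∈ E, α < β ∧ β < δ) → δ ∈ E)
    (hgood : ∀ δ ∈ E, δ < lam.ord → ℵ₀ < δ.cof → δ.cof ≤ 𝔠 → GoodPt f δ ∨ EubPt f δ) :
    ∃ (X : Type) (_ : TopologicalSpace X), T1Space X ∧ NormalSpace X ∧
      (∀ 𝒰 : Set (Set X), (∀ U ∈ 𝒰, IsOpen U) → IsChain (· ⊆ ·) 𝒰 → ⋃₀ 𝒰 = Set.univ →
        ∃ 𝒱 ⊆ 𝒰, 𝒱.Countable ∧ ⋃₀ 𝒱 = Set.univ) ∧
      (∀ A : Set X, (#A).IsRegular → ℵ₀ < #A →
        ∃ x, ∀ U : Set X, IsOpen U → x ∈ U → #↥(U ∩ A) = #A) ∧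
      ¬ LindelofSpace X := by
  obtain ⟨f', hf'⟩ := hf.exists_eubScale hE hE' hgood
  obtain ⟨X, t, h1, h2, h3, h4⟩ := exists_space hf'
  exact ⟨X, t, inferInstance, h2, h3, fun A hA hA' => h3.exists_cap A hA hA', h4⟩

end Pool.Agent.Results.MP_473540_gt.GoodScale
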