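import Mathlib
import Pool.Agent.Lib.MP_473540_gtM.MuMain
import Pool.Agent.Lib.MP_473540_gtM.BV.Mod

/-!
# A normal linearly Lindelöf space which is not Lindelöf in a model of `ZFC`

The topological notions inside a model of set theory are defined in
`Pool.Agent.Lib.MP_473540_gtM.BV.IDefs`. The axioms are defined in `Pool.Agent.Lib.RM48.Defs`
(`IsZFC`) and `Pool.Agent.Lib.SymZF.ZF` (`IsZF`), ordered pairs and `ω` of a model in
`Pool.Agent.Lib.SymZF.IntDefs`.
-/

set_option autoImplicit false

namespace Pool.Agent.Results.MP_473540_gt.ModelExample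

open Cardinal Pool.Agent.Lib.SymZF Pool.Agent.Lib.RM48 Pool.Agent.Lib.MP_473540_gtM

/-- There is a countable well-founded model `(M, E)` of `ZFC` with elements `X` and `T` such that in
`M` the set `T` is a normal `T₁` topology on `X`, every open cover of `X` which is a chain under
inclusion has a countable subcover, and `(X, T)` is not Lindelöf. -/
theorem result : ∃ (M : Type) (E : M → M → Prop), Countable M ∧ WellFounded E ∧ IsZFC E ∧
    ∃ X T : M, IsExample E X T := by
  have h1 : #(ℕ → ℕ) = 𝔠 := by
    rw [← power_def, mk_nat, aleph0_power_aleph0]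
  have h2 : ℵ₀ ≤ #(ℕ → ℕ) := by
    rw [h1]
    exact aleph0_le_continuum
  obtain ⟨Y, t, hY⟩ := exists_muSpace (ℕ → ℕ) h2 (by rw [h1, continuum_power_aleph0])
  exact exists_model_of h2 hY

end Pool.Agent.Results.MP_473540_gt.ModelExample
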